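import Pool.Agent.Lib.MP_1526eb_mp.OneProof

namespace Pool.Agent.Results.MP_1526eb_mp.RaisingOneCharge

open Pool.Agent.Lib.TFW.One

/-- For all constants `A, γ > 0` there are nuclei (distinct positions `R`, positive charges `z`)
and an index `j` such that raising the charge `z j` alone strictly lowers the excess charge
`N_c - Z` of Thomas-Fermi-von Weizsaecker theory; the ground state energies and the critical
numbers before and after the change are finite. -/
theorem result (A γ : ℝ) (hA : 0 < A) (hγ : 0 < γ) :
    ∃ (K : ℕ) (R : Fin K → E3) (z : Fin K → ℝ) (j : Fin K) (t : ℝ), Function.Injective R ∧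
      (∀ i, 0 < z i) ∧ z j < t ∧
      ⊥ < groundEnergy A γ R z ∧ criticalNumber A γ R z < ⊤ ∧
      ⊥ < groundEnergy A γ R (Function.update z j t) ∧
      criticalNumber A γ R (Function.update z j t) < ⊤ ∧
      excessCharge A γ R (Function.update z j t) < excessCharge A γ R z :=
  single_charge A γ hA hγ

end Pool.Agent.Results.MP_1526eb_mp.RaisingOneCharge
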